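import Pool.Agent.W998.KG.Stm3

/-!
# Project KG, part TAS: Tashkinov's theorem
-/

set_option autoImplicit false

namespace Pool.Agent.W411.KG

open Pool.Agent.W998.KG
open Pool.Agent.Results.MP_633d19_co.SmallDegree
open Pool.Agent.Results.MP_633d19_co.SmallDegree.MGraph

variable {V E : Type}

/-- path number at most `p` -/
def PN (p n : ℕ) (pr : ℕ → ℕ) : Prop := ∀ t < n, p ≤ t → pr t = t

def Good (G : MGraph V E) (k p n : ℕ) : Prop :=
  ∀ (y : ℕ → V) (f : ℕ → E) (pr : ℕ → ℕ) (c : E → Option (Fin k)), TT G n y f pr c → PN p n pr →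
    ∀ i j, i < j → j ≤ n → ∀ a, G.Miss c (y i) a → G.Miss c (y j) a → False

def Adj2 (G : MGraph V E) {k : ℕ} (c : E → Option (Fin k)) (a b : Fin k) (u w : V) : Prop :=
  ∃ e, G.ends e = s(u, w) ∧ (c e = some a ∨ c e = some b)

def Rch (G : MGraph V E) {k : ℕ} (c : E → Option (Fin k)) (a b : Fin k) : V → V → Prop :=
  Relation.ReflTransGen (Adj2 G c a b)

lemma Rch.comm {G : MGraph V E} {k : ℕ} {c : E → Option (Fin k)} {a b : Fin k} {u w : V}
    (h : Rch G c a b u w) : Rch G c b a u w := by
  induction h with
  | refl => exact Relation.ReflTransGen.refl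
  | tail _ hst ih =>
    obtain ⟨e, he, h1⟩ := hst
    exact Relation.ReflTransGen.tail ih ⟨e, he, h1.symm⟩

lemma Rch.sym {G : MGraph V E} {k : ℕ} {c : E → Option (Fin k)} {a b : Fin k} {u w : V}
    (h : Rch G c a b u w) : Rch G c a b w u := by
  induction h with
  | refl => exact Relation.ReflTransGen.refl
  | tail _ hst ih =>
    obtain ⟨e, he, h1⟩ := hst
    exact Relation.ReflTransGen.head ⟨e, by rw [he, Sym2.eq_swap], h1⟩ ih

structure Ex (G : MGraph V E) {k : ℕ} (c c' : E → Option (Fin k)) (a b : Fin k) (x : V) :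
    Prop where
  pp : G.PP c'
  none : ∀ e, c' e = none ↔ c e = none
  oth : ∀ e z, z ≠ a → z ≠ b → (c' e = some z ↔ c e = some z)
  inK : ∀ v, Rch G c a b x v → ∀ z, G.Miss c v z → G.Miss c' v (Equiv.swap a b z)
  outK : ∀ v, ¬ Rch G c a b x v → ∀ z, G.Miss c v z → G.Miss c' v z
  edge : ∀ e v, v ∈ G.ends e → ¬ Rch G c a b x v → c' e = c e

lemma Ex.moth {G : MGraph V E} {k : ℕ} {c c' : E → Option (Fin k)} {a b : Fin k} {x : V}
    (h : Ex G c c' a b x) {v : V} {z : Fin k} (h1 : z ≠ a) (h2 : z ≠ b) (hm : G.Miss c v z) :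
    G.Miss c' v z := fun e he h3 => hm e he ((h.oth e z h1 h2).mp h3)

lemma exch (G : MGraph V E) {k : ℕ} {c : E → Option (Fin k)} (hc : G.PP c) (a b : Fin k)
    (x : V) : ∃ c' : E → Option (Fin k), Ex G c c' a b x := by
  classical
  have hK : ∀ e u w, u ∈ G.ends e → w ∈ G.ends e → (c e = some a ∨ c e = some b) →
      Rch G c a b x u → Rch G c a b x w := by
    intro e u w hu hw hcol h
    by_cases huw : w = u
    · rw [huw]
      exact h
    have hends : G.ends e = s(u, w) := (Sym2.mem_and_mem_iff (Ne.symm huw)).mp ⟨hu, hw⟩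
    exact Relation.ReflTransGen.tail h ⟨e, hends, hcol⟩
  have key1 : ∀ e v, v ∈ G.ends e → ¬ Rch G c a b x v →
      (if ∃ u ∈ G.ends e, Rch G c a b x u then (c e).map (Equiv.swap a b) else c e) = c e := by
    intro e v hv hvK
    split_ifs with h
    · obtain ⟨u, hu, huK⟩ := h
      rcases hce : c e with _ | x
      · rfl
      · have h1 : x ≠ a := by
          rintro rfl
          exact hvK (hK e u v hu hv (Or.inl hce) huK)
        have h2 : x ≠ b := by
          rintro rfl
          exact hvK (hK e u v hu hv (Or.inr hce) huK)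
        simp [Equiv.swap_apply_of_ne_of_ne h1 h2]
    · rfl
  have key2 : ∀ e v, v ∈ G.ends e → Rch G c a b x v →
      (if ∃ u ∈ G.ends e, Rch G c a b x u then (c e).map (Equiv.swap a b) else c e) =
        (c e).map (Equiv.swap a b) := by
    intro e v hv hvK
    rw [if_pos ⟨v, hv, hvK⟩]
  have map_some : ∀ (o : Option (Fin k)) x, o.map (Equiv.swap a b) = some x ↔
      o = some (Equiv.swap a b x) := by
    intro o x
    rcases o with _ | y
    · simp
    · simp only [Option.map_some, Option.some.injEq]
      constructor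
      · rintro rfl
        simp
      · rintro rfl
        simp
  refine ⟨fun e => if ∃ u ∈ G.ends e, Rch G c a b x u then (c e).map (Equiv.swap a b) else c e,
    ?_, ?_, ?_, ?_, ?_, ?_⟩
  · intro e f v z he hf h1 h2
    by_cases hv : Rch G c a b x v
    · simp only [key2 e v he hv, map_some] at h1
      simp only [key2 f v hf hv, map_some] at h2
      exact hc e f v _ he hf h1 h2
    · simp only [key1 e v he hv] at h1
      simp only [key1 f v hf hv] at h2
      exact hc e f v _ he hf h1 h2
  · intro e
    split_ifs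
    · simp
    · rfl
  · intro e x h1 h2
    split_ifs
    · rw [map_some, Equiv.swap_apply_of_ne_of_ne h1 h2]
    · rfl
  · intro v hv x hx e he h
    simp only [key2 e v he hv, map_some, Equiv.swap_apply_self] at h
    exact hx e he h
  · intro v hv x hx e he h
    simp only [key1 e v he hv] at h
    exact hx e he h
  · intro e v he hv
    exact key1 e v he hv

lemma three_aux [Finite V] {G : MGraph V E} {k : ℕ} {c : E → Option (Fin k)} (hc : G.PP c)
    {a b : Fin k} {x u w : V} (hx : G.Miss c x a) (hu : G.Miss c u a ∨ G.Miss c u b)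
    (hw : G.Miss c w a ∨ G.Miss c w b) (h1 : Rch G c a b x u) (h2 : Rch G c a b x w) :
    x = u ∨ x = w ∨ u = w := by
  have hs := G.iv_sq hc a
  have ht := G.iv_sq hc b
  have hsx : G.iv hc a x = x := by rw [iv_apply]; exact G.nb_miss hx
  have orb : ∀ v, Rch G c a b x v → ∃ n : ℤ, v = ((G.iv hc a * G.iv hc b) ^ n) x := by
    intro v hv
    induction hv with
    | refl => exact ⟨0, by simp⟩
    | tail _ hst ih =>
      obtain ⟨n, hn⟩ := ih
      obtain ⟨e, he, hcol⟩ := hst
      rcases hcol with hcol | hcol
      · refine ⟨-n, ?_⟩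
        rw [← dih_s _ _ hs ht x hsx, ← hn, iv_apply, G.nb_eq hc hcol he]
      · refine ⟨-n - 1, ?_⟩
        rw [← dih_t _ _ hs ht x hsx, ← hn, iv_apply, G.nb_eq hc hcol he]
  obtain ⟨n, hn⟩ := orb u h1
  obtain ⟨m, hm⟩ := orb w h2
  exact three_fixed _ _ hs ht x u w hsx n m hn hm
    (hu.imp (fun h => by rw [iv_apply]; exact G.nb_miss h)
      (fun h => by rw [iv_apply]; exact G.nb_miss h))
    (hw.imp (fun h => by rw [iv_apply]; exact G.nb_miss h)
      (fun h => by rw [iv_apply]; exact G.nb_miss h))

lemma three [Finite V] {G : MGraph V E} {k : ℕ} {c : E → Option (Fin k)} (hc : G.PP c)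
    {a b : Fin k} {x u w : V} (hx : G.Miss c x a ∨ G.Miss c x b)
    (hu : G.Miss c u a ∨ G.Miss c u b)
    (hw : G.Miss c w a ∨ G.Miss c w b) (h1 : Rch G c a b x u) (h2 : Rch G c a b x w)
    (n1 : x ≠ u) (n2 : x ≠ w) (n3 : u ≠ w) : False := by
  rcases hx with hx | hx
  · rcases three_aux hc hx hu hw h1 h2 with h | h | h
    · exact n1 h
    · exact n2 h
    · exact n3 h
  · rcases three_aux hc hx hu.symm hw.symm h1.comm h2.comm with h | h | h
    · exact n1 h
    · exact n2 h
    · exact n3 h

lemma trunc {G : MGraph V E} {k n n' : ℕ} {y : ℕ → V} {f : ℕ → E} {pr : ℕ → ℕ}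
    {c : E → Option (Fin k)} (h : TT G n y f pr c) (hr : n' ≤ n) : TT G n' y f pr c where
  pp := h.pp
  inj := fun i hi j hj => h.inj i (hi.trans hr) j (hj.trans hr)
  le := fun i hi => h.le i (by omega)
  ed := fun i hi => h.ed i (by omega)
  none_iff := h.none_iff
  col := fun i hi => h.col i (by omega)

lemma PN.trunc {p n n' : ℕ} {pr : ℕ → ℕ} (h : PN p n pr) (hn : n' ≤ n) : PN p n' pr :=
  fun t ht h1 => h t (by omega) h1

/-- colouring an edge both ends of which miss the colour -/
lemma pp_update [DecidableEq E] {G : MGraph V E} {k : ℕ} {c : E → Option (Fin k)}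
    (hc : G.PP c) (e0 : E) (u w : V) (he : G.ends e0 = s(u, w)) (a : Fin k)
    (hu : G.Miss c u a) (hw : G.Miss c w a) : G.PP (Function.update c e0 (some a)) := by
  have key : ∀ f v, v ∈ G.ends e0 → v ∈ G.ends f → f ≠ e0 → c f ≠ some a := by
    intro f v hv hvf _
    rw [he, Sym2.mem_iff] at hv
    rcases hv with rfl | rfl
    · exact hu f hvf
    · exact hw f hvf
  intro e f v x hev hfv h1 h2
  by_cases h3 : e = e0
  · by_cases h4 : f = e0
    · rw [h3, h4]
    · exfalso
      rw [h3, Function.update_self] at h1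
      rw [Function.update_of_ne h4, ← h1] at h2
      rw [h3] at hev
      exact key f v hev hfv h4 h2
  · by_cases h4 : f = e0
    · exfalso
      rw [h4, Function.update_self] at h2
      rw [Function.update_of_ne h3, ← h2] at h1
      rw [h4] at hfv
      exact key e v hfv hev h3 h1
    · rw [Function.update_of_ne h3] at h1
      rw [Function.update_of_ne h4] at h2
      exact hc e f v x hev hfv h1 h2

/-- the tree after an exchange -/
lemma tt_exch {G : MGraph V E} {k n : ℕ} {y : ℕ → V} {f : ℕ → E} {pr : ℕ → ℕ}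
    {c c' : E → Option (Fin k)} {a b : Fin k} {x : V} (h : TT G n y f pr c)
    (hx : Ex G c c' a b x)
    (hB : ∀ t < n, 1 ≤ t → (c (f t) = some a ∨ c (f t) = some b) →
      (c' (f t) = some a → ∃ s ≤ t, G.Miss c' (y s) a) ∧
      (c' (f t) = some b → ∃ s ≤ t, G.Miss c' (y s) b)) : TT G n y f pr c' := by
  refine ⟨hx.pp, h.inj, h.le, h.ed, fun e => (hx.none e).trans (h.none_iff e), ?_⟩
  intro t ht ht1
  obtain ⟨z, hz, s, hs, hm⟩ := h.col t ht ht1
  by_cases hza : z = a ∨ z = b
  · have hB' := hB t ht ht1 (by
      rcases hza with rfl | rfl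
      · exact Or.inl hz
      · exact Or.inr hz)
    have hnn : c' (f t) ≠ none := by
      rw [Ne, hx.none, hz]
      simp
    obtain ⟨z', hz'⟩ := Option.ne_none_iff_exists'.mp hnn
    have hzab : z' = a ∨ z' = b := by
      by_contra hcon
      push Not at hcon
      have h2 := (hx.oth _ z' hcon.1 hcon.2).mp hz'
      rw [hz] at h2
      have h3 : z = z' := Option.some.inj h2
      rw [h3] at hza
      rcases hza with h4 | h4
      · exact hcon.1 h4
      · exact hcon.2 h4
    rcases hzab with rfl | rfl
    · exact ⟨_, hz', hB'.1 hz'⟩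
    · exact ⟨_, hz', hB'.2 hz'⟩
  · push Not at hza
    exact ⟨z, (hx.oth _ z hza.1 hza.2).mpr hz, s, hs, hx.moth hza.1 hza.2 hm⟩

lemma elem {G : MGraph V E} {k p n : ℕ} {y : ℕ → V} {f : ℕ → E} {pr : ℕ → ℕ}
    {c : E → Option (Fin k)} (IH : ∀ n' < n, Good G k p n') (h : TT G n y f pr c)
    (hp : PN p n pr) {s t : ℕ} (hst : s < t) (ht : t < n) {z : Fin k}
    (h1 : G.Miss c (y s) z) (h2 : G.Miss c (y t) z) : False :=
  IH t ht y f pr c (trunc h ht.le) (hp.trunc ht.le) s t hst le_rfl z h1 h2

/-- Kempe claim A -/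
lemma claimA {G : MGraph V E} {k p n : ℕ} {y : ℕ → V} {f : ℕ → E} {pr : ℕ → ℕ}
    {c : E → Option (Fin k)} (IH : ∀ n' < n, Good G k p n') (h : TT G n y f pr c)
    (hp : PN p n pr) {i j : ℕ} (hij : i < j) (hj : j < n) {a b : Fin k}
    (h1 : G.Miss c (y i) a) (h2 : G.Miss c (y j) b)
    (hf : ∀ t, 1 ≤ t → t < j → c (f t) ≠ some a) : Rch G c a b (y j) (y i) := by
  by_contra hcon
  obtain ⟨c', hx⟩ := exch G h.pp a b (y j)
  have g1 : G.Miss c' (y j) a := by
    have := hx.inK (y j) Relation.ReflTransGen.refl b h2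
    simpa using this
  have g2 : G.Miss c' (y i) a := hx.outK (y i) hcon a h1
  refine IH j hj y f pr c' (tt_exch (trunc h hj.le) hx ?_) (hp.trunc hj.le) i j hij le_rfl a g2 g1
  intro t ht ht1 hcol
  exfalso
  rcases hcol with hcol | hcol
  · exact hf t ht1 ht hcol
  · obtain ⟨z, hz, s, hs, hm⟩ := h.col t (by omega) ht1
    rw [hcol] at hz
    have h3 : b = z := Option.some.inj hz
    subst h3
    exact elem IH h hp (by omega : s < j) hj hm h2

lemma case1a [Finite V] [Finite E] {G : MGraph V E} {k Δ : ℕ} (hG : ¬ G.Colorable k)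
    (hdeg : ∀ u, G.degree u ≤ Δ) (hk : Δ + 1 ≤ k) {p n : ℕ} (IH : ∀ n' < n, Good G k p n') :
    ∀ d, ∀ (y : ℕ → V) (f : ℕ → E) (pr : ℕ → ℕ) (c : E → Option (Fin k)), TT G n y f pr c →
      PN p n pr → ∀ i, p ≤ i → i + 1 + d = n → ∀ a, G.Miss c (y i) a → G.Miss c (y n) a →
      False := by
  classical
  intro d
  induction d with
  | zero =>
    intro y f pr c h hp i hpi hin a hi hn
    have hin' : n = i + 1 := by omega
    subst hin'
    have he := h.ed i (by omega)
    rw [hp i (by omega) hpi] at he
    rcases Nat.eq_zero_or_pos i with hi0 | hi0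
    · subst hi0
      refine hG (G.colorable_of_total (Function.update c (f 0) (some a))
        (pp_update h.pp (f 0) (y 0) (y (0 + 1)) he a hi hn) ?_)
      intro e
      by_cases h1 : e = f 0
      · rw [h1, Function.update_self]
        simp
      · rw [Function.update_of_ne h1, Ne, h.none_iff]
        exact h1
    · obtain ⟨b, hb, j, hj, hjb⟩ := h.col i (by omega) hi0
      have hyi : y i ∈ G.ends (f i) := by
        rw [he]
        simp
      have hji : j < i := by
        rcases Nat.lt_or_ge j i with h1 | h1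
        · exact h1
        · exfalso
          have : j = i := by omega
          subst this
          exact hjb (f j) hyi hb
      have hpp := pp_update h.pp (f i) (y i) (y (i + 1)) he a hi hn
      have hoff : ∀ j < i, y j ∉ G.ends (f i) := by
        intro j hj hmem
        rw [he, Sym2.mem_iff] at hmem
        rcases hmem with h1 | h1
        · have := h.inj j (by omega) i (by omega) h1
          omega
        · have := h.inj j (by omega) (i + 1) (by omega) h1
          omega
      have hmiss : ∀ j < i, ∀ x, G.Miss c (y j) x →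
          G.Miss (Function.update c (f i) (some a)) (y j) x := by
        intro j hj x hx e he'
        have h1 : e ≠ f i := by
          rintro rfl
          exact hoff j hj he'
        rw [Function.update_of_ne h1]
        exact hx e he'
      have hfne : ∀ t < i, f t ≠ f i := by
        intro t ht h1
        apply hoff (pr t) (lt_of_le_of_lt (h.le t (by omega)) ht)
        rw [← h1, h.ed t (by omega)]
        simp
      have hTT : TT G i y f pr (Function.update c (f i) (some a)) := by
        refine ⟨hpp, fun s hs t ht => h.inj s (by omega) t (by omega),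
          fun t ht => h.le t (by omega), fun t ht => h.ed t (by omega), ?_, ?_⟩
        · intro e
          by_cases h1 : e = f i
          · rw [h1, Function.update_self]
            constructor
            · intro h2
              simp at h2
            · intro h2
              exact absurd h2.symm (hfne 0 hi0)
          · rw [Function.update_of_ne h1]
            exact h.none_iff e
        · intro t ht ht1
          obtain ⟨x, hx, s, hs, hsx⟩ := h.col t (by omega) ht1
          refine ⟨x, ?_, s, hs, hmiss s (by omega) x hsx⟩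
          rw [Function.update_of_ne (hfne t ht)]
          exact hx
      refine IH i (by omega) y f pr _ hTT (hp.trunc (by omega)) j i hji le_rfl b
        (hmiss j hji b hjb) ?_
      intro e he' h1
      by_cases h2 : e = f i
      · rw [h2, Function.update_self] at h1
        have hab : a = b := Option.some.inj h1
        exact hi (f i) hyi (by rw [hb, hab])
      · rw [Function.update_of_ne h2] at h1
        exact h2 (h.pp e (f i) (y i) b he' hyi h1 hb)
  | succ d ihd =>
    intro y f pr c h hp i hpi hin a hi hn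
    obtain ⟨b, hb⟩ := G.exists_miss c (y (i + 1)) (hdeg _) hk
    have hne1 : y n ≠ y i := fun h2 => by
      have := h.inj n le_rfl i (by omega) h2
      omega
    have hne2 : y n ≠ y (i + 1) := fun h2 => by
      have := h.inj n le_rfl (i + 1) (by omega) h2
      omega
    have hne3 : y i ≠ y (i + 1) := fun h2 => by
      have := h.inj i (by omega) (i + 1) (by omega) h2
      omega
    have hfirst : ∀ t, 1 ≤ t → t ≤ i → c (f t) ≠ some a ∧ c (f t) ≠ some b := by
      intro t ht1 hti
      obtain ⟨x, hx, s, hs, hsx⟩ := h.col t (by omega) ht1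
      constructor
      · intro h1
        rw [hx] at h1
        have h2 : x = a := Option.some.inj h1
        subst h2
        rcases Nat.lt_or_ge s i with h3 | h3
        · exact elem IH h hp h3 (by omega) hsx hi
        · have hsi : s = i := by omega
          have hti' : t = i := by omega
          subst hti'
          refine hi (f t) ?_ hx
          rw [h.ed t (by omega), hp t (by omega) hpi]
          simp
      · intro h1
        rw [hx] at h1
        have h2 : x = b := Option.some.inj h1
        subst h2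
        exact elem IH h hp (by omega : s < i + 1) (by omega) hsx hb
    have hA := claimA IH h hp (Nat.lt_succ_self i) (by omega) hi hb
      (fun t ht1 ht => (hfirst t ht1 (by omega)).1)
    have hni : ¬ Rch G c a b (y n) (y i) := fun hr =>
      three h.pp (Or.inl hn) (Or.inl hi) (Or.inr hb) hr (Relation.ReflTransGen.trans hr hA.sym)
        hne1 hne2 hne3
    have hni' : ¬ Rch G c a b (y n) (y (i + 1)) := fun hr =>
      hni (Relation.ReflTransGen.trans hr hA)
    obtain ⟨c', hx⟩ := exch G h.pp a b (y n)
    have ma : G.Miss c' (y i) a := hx.outK _ hni a hi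
    have mb : G.Miss c' (y (i + 1)) b := hx.outK _ hni' b hb
    have mn : G.Miss c' (y n) b := by
      have := hx.inK (y n) Relation.ReflTransGen.refl a hn
      simpa using this
    refine ihd y f pr c' (tt_exch h hx ?_) hp (i + 1) (by omega) (by omega) b mb mn
    intro t ht ht1 hcol
    have hti : i < t := by
      by_contra hti
      have := hfirst t ht1 (by omega)
      rcases hcol with hcol | hcol
      · exact this.1 hcol
      · exact this.2 hcol
    refine ⟨fun _ => ⟨i, hti.le, ma⟩, fun hb' => ⟨i + 1, hti, mb⟩⟩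

/-- adding a vertex to a tree -/
lemma ext {G : MGraph V E} {k n q : ℕ} {y : ℕ → V} {f : ℕ → E} {pr : ℕ → ℕ}
    {c : E → Option (Fin k)} (h : TT G n y f pr c) (hn : 1 ≤ n) (hq : q ≤ n) {e : E} {w : V}
    (he : G.ends e = s(y q, w)) (hw : ∀ t ≤ n, y t ≠ w) {x : Fin k} (hx : c e = some x)
    (hm : ∃ s ≤ n, G.Miss c (y s) x) :
    TT G (n + 1) (Function.update y (n + 1) w) (Function.update f n e)
      (Function.update pr n q) c := by
  have e1 : ∀ t ≤ n, Function.update y (n + 1) w t = y t := fun t ht =>
    Function.update_of_ne (by omega) _ _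
  have e2 : Function.update y (n + 1) w (n + 1) = w := Function.update_self _ _ _
  have e3 : ∀ t < n, Function.update f n e t = f t := fun t ht =>
    Function.update_of_ne (by omega) _ _
  have e4 : Function.update f n e n = e := Function.update_self _ _ _
  have e5 : ∀ t < n, Function.update pr n q t = pr t := fun t ht =>
    Function.update_of_ne (by omega) _ _
  have e6 : Function.update pr n q n = q := Function.update_self _ _ _
  refine ⟨h.pp, ?_, ?_, ?_, ?_, ?_⟩
  · intro i hi j hj hij
    rcases Nat.lt_or_ge n i with h1 | h1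
    · have hi' : i = n + 1 := by omega
      subst hi'
      rcases Nat.lt_or_ge n j with h2 | h2
      · omega
      · rw [e2, e1 j h2] at hij
        exact absurd hij.symm (hw j h2)
    · rcases Nat.lt_or_ge n j with h2 | h2
      · have hj' : j = n + 1 := by omega
        subst hj'
        rw [e2, e1 i h1] at hij
        exact absurd hij (hw i h1)
      · rw [e1 i h1, e1 j h2] at hij
        exact h.inj i h1 j h2 hij
  · intro i hi
    rcases Nat.lt_or_ge i n with h1 | h1
    · rw [e5 i h1]
      exact h.le i h1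
    · have : i = n := by omega
      subst this
      rw [e6]
      exact hq
  · intro i hi
    rcases Nat.lt_or_ge i n with h1 | h1
    · rw [e3 i h1, e5 i h1, e1 _ ((h.le i h1).trans h1.le), e1 (i + 1) (by omega)]
      exact h.ed i h1
    · have : i = n := by omega
      subst this
      rw [e4, e6, e1 q hq, e2]
      exact he
  · intro e'
    rw [e3 0 (by omega)]
    exact h.none_iff e'
  · intro i hi hi1
    rcases Nat.lt_or_ge i n with h1 | h1
    · obtain ⟨a, ha, s, hs, hsm⟩ := h.col i h1 hi1
      rw [e3 i h1]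
      exact ⟨a, ha, s, hs, by rw [e1 s (by omega)]; exact hsm⟩
    · have : i = n := by omega
      subst this
      obtain ⟨s, hs, hsm⟩ := hm
      rw [e4]
      exact ⟨x, hx, s, hs, by rw [e1 s hs]; exact hsm⟩

/-- two missing colours at an end of an uncoloured edge -/
lemma two_miss [Finite E] (G : MGraph V E) {k : ℕ} (c : E → Option (Fin k)) {Δ : ℕ}
    (u : V) (hdeg : G.degree u ≤ Δ) (hk : Δ + 1 ≤ k) (e0 : E) (h0 : c e0 = none)
    (hu : u ∈ G.ends e0) : ∃ a b, a ≠ b ∧ G.Miss c u a ∧ G.Miss c u b := by
  classical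
  obtain ⟨a, ha⟩ := G.exists_miss c u hdeg hk
  obtain ⟨b, hb⟩ := G.exists_miss (Function.update c e0 (some a)) u hdeg hk
  refine ⟨a, b, ?_, ha, ?_⟩
  · rintro rfl
    exact hb e0 hu (by rw [Function.update_self])
  · intro e he h1
    by_cases h2 : e = e0
    · rw [h2, h0] at h1
      simp at h1
    · exact hb e he (by rw [Function.update_of_ne h2]; exact h1)

/-- free colours -/
lemma free [Finite E] {G : MGraph V E} {k Δ : ℕ}
    (hdeg : ∀ u, G.degree u ≤ Δ) (hk : Δ + 1 ≤ k) {m n : ℕ} {y : ℕ → V} {f : ℕ → E}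
    {pr : ℕ → ℕ} {c : E → Option (Fin k)} (h : TT G n y f pr c) (hm : 1 ≤ m) (hmn : m < n)
    (hel : ∀ s t, s < t → t ≤ m → ∀ z, G.Miss c (y s) z → G.Miss c (y t) z → False) :
    ∃ a ≤ m, ∃ α, G.Miss c (y a) α ∧ ∀ t, 1 ≤ t → t ≤ m + 1 → c (f t) ≠ some α := by
  classical
  by_contra hcon
  push Not at hcon
  let M : ℕ → Finset (Fin k) := fun s => Finset.univ.filter (fun z => G.Miss c (y s) z)
  have hM : ∀ s z, z ∈ M s ↔ G.Miss c (y s) z := by
    intro s z
    simp [M]
  have c1 : ∀ s, 1 ≤ (M s).card := by
    intro s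
    obtain ⟨a, ha⟩ := G.exists_miss c (y s) (hdeg _) hk
    exact Finset.card_pos.mpr ⟨a, (hM s a).mpr ha⟩
  have c2 : ∀ s ≤ 1, 2 ≤ (M s).card := by
    intro s hs
    have h0 := h.ed 0 (by omega)
    have hpr : pr 0 = 0 := by have := h.le 0 (by omega); omega
    rw [hpr] at h0
    obtain ⟨a, b, hab, ha, hb⟩ := two_miss G c (y s) (hdeg _) hk (f 0)
      ((h.none_iff (f 0)).mpr rfl) (by
        rw [h0]
        rcases Nat.lt_or_ge s 1 with h1 | h1
        · have : s = 0 := by omega
          subst this
          simp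
        · have : s = 1 := by omega
          subst this
          simp)
    have : ({a, b} : Finset (Fin k)) ⊆ M s := by
      intro z hz
      rw [Finset.mem_insert, Finset.mem_singleton] at hz
      rcases hz with rfl | rfl
      · exact (hM s _).mpr ha
      · exact (hM s _).mpr hb
    calc 2 = ({a, b} : Finset (Fin k)).card := (Finset.card_pair hab).symm
      _ ≤ _ := Finset.card_le_card this
  have hdis : ∀ s ∈ Finset.range (m + 1), ∀ t ∈ Finset.range (m + 1), s ≠ t →
      Disjoint (M s) (M t) := by
    intro s hs t ht hst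
    rw [Finset.mem_range] at hs ht
    rw [Finset.disjoint_left]
    intro z hz1 hz2
    rw [hM] at hz1 hz2
    rcases Nat.lt_or_ge s t with h1 | h1
    · exact hel s t h1 (by omega) z hz1 hz2
    · exact hel t s (by omega) (by omega) z hz2 hz1
  have hcard : ((Finset.range (m + 1)).biUnion M).card = ∑ s ∈ Finset.range (m + 1), (M s).card :=
    Finset.card_biUnion hdis
  have hsum : m + 3 ≤ ∑ s ∈ Finset.range (m + 1), (M s).card := by
    obtain ⟨q, rfl⟩ : ∃ q, m = q + 1 := ⟨m - 1, by omega⟩
    rw [Finset.sum_range_succ', Finset.sum_range_succ']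
    have h1 := c2 0 (by omega)
    have h2 := c2 (0 + 1) (by omega)
    have h3 : q ≤ ∑ s ∈ Finset.range q, (M (s + 1 + 1)).card := by
      calc q = ∑ s ∈ Finset.range q, 1 := by simp
        _ ≤ _ := Finset.sum_le_sum (fun s _ => c1 _)
    omega
  have hsub : ((Finset.range (m + 1)).biUnion M).image some ⊆
      (Finset.Icc 1 (m + 1)).image (fun t => c (f t)) := by
    intro o ho
    rw [Finset.mem_image] at ho
    obtain ⟨z, hz, rfl⟩ := ho
    rw [Finset.mem_biUnion] at hz
    obtain ⟨s, hs, hz⟩ := hz
    rw [Finset.mem_range] at hs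
    obtain ⟨t, h1, h2, h3⟩ := hcon s (by omega) z ((hM s z).mp hz)
    rw [Finset.mem_image]
    exact ⟨t, Finset.mem_Icc.mpr ⟨h1, h2⟩, h3⟩
  have h4 := Finset.card_le_card hsub
  rw [Finset.card_image_of_injective _ (Option.some_injective _)] at h4
  have h5 : ((Finset.Icc 1 (m + 1)).image (fun t => c (f t))).card ≤ m + 1 := by
    refine Finset.card_image_le.trans ?_
    simp
  omega

lemma caseB [Finite V] [Finite E] {G : MGraph V E} {k Δ : ℕ}
    (hdeg : ∀ u, G.degree u ≤ Δ) (hk : Δ + 1 ≤ k) {m n : ℕ}
    (IH : ∀ n' < n, Good G k (m + 2) n') {y : ℕ → V} {f : ℕ → E}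
    {pr : ℕ → ℕ} {c : E → Option (Fin k)} (h : TT G n y f pr c) (hp : PN (m + 2) n pr)
    (hm : 1 ≤ m) (hmn : m + 2 ≤ n) {η : Fin k}
    (h1 : G.Miss c (y (m + 1)) η) (h2 : G.Miss c (y n) η) :
    ∃ c' : E → Option (Fin k), ∃ a' ≤ m, TT G n y f pr c' ∧ G.Miss c' (y a') η ∧
      G.Miss c' (y n) η ∧ ∀ κ, c (f (m + 1)) = some κ → κ ≠ η →
        c' (f (m + 1)) = some κ ∧ ∀ v, G.Miss c v κ → G.Miss c' v κ := by
  obtain ⟨a', ha', α, hα, hfree⟩ := free hdeg hk h hm (by omega)
    (fun s t hst ht z => elem IH h hp hst (by omega))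
  have hA := claimA IH h hp (by omega : a' < m + 1) (by omega) hα h1
    (fun t ht1 ht => hfree t ht1 (by omega))
  have hn : ¬ Rch G c α η (y (m + 1)) (y n) := fun hr =>
    three h.pp (Or.inr h1) (Or.inl hα) (Or.inr h2) hA hr
      (fun h3 => by have := h.inj _ (by omega) _ (by omega) h3; omega)
      (fun h3 => by have := h.inj _ (by omega) _ (by omega) h3; omega)
      (fun h3 => by have := h.inj _ (by omega) _ (by omega) h3; omega)
  obtain ⟨c', hx⟩ := exch G h.pp α η (y (m + 1))
  have m1 : G.Miss c' (y a') η := by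
    have := hx.inK _ hA α hα
    simpa using this
  have m2 : G.Miss c' (y (m + 1)) α := by
    have := hx.inK _ Relation.ReflTransGen.refl η h1
    simpa using this
  have m3 : G.Miss c' (y n) η := hx.outK _ hn η h2
  refine ⟨c', a', ha', tt_exch h hx ?_, m1, m3, ?_⟩
  · intro t ht ht1 hcol
    have hmt : m + 1 ≤ t := by
      by_contra hmt
      rcases hcol with hcol | hcol
      · exact hfree t ht1 (by omega) hcol
      · obtain ⟨z, hz, s, hs, hsm⟩ := h.col t ht ht1
        rw [hcol] at hz
        have h3 : η = z := Option.some.inj hz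
        subst h3
        exact elem IH h hp (by omega : s < m + 1) (by omega) hsm h1
    exact ⟨fun _ => ⟨m + 1, hmt, m2⟩, fun _ => ⟨a', by omega, m1⟩⟩
  · intro κ hκ hκη
    have hκα : κ ≠ α := by
      rintro rfl
      exact hfree (m + 1) (by omega) le_rfl hκ
    exact ⟨(hx.oth _ κ hκα hκη).mpr hκ, fun v hv => hx.moth hκα hκη hv⟩

/-- deleting the last but one vertex -/
lemma caseD {G : MGraph V E} {k : ℕ} {m : ℕ} (IHp : ∀ n', Good G k (m + 1) n')
    {y : ℕ → V} {f : ℕ → E} {pr : ℕ → ℕ} {c : E → Option (Fin k)}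
    (h : TT G (m + 2) y f pr c) (hm : 1 ≤ m) (hpr : pr (m + 1) ≤ m) {κ η : Fin k}
    (hκ : c (f (m + 1)) = some κ) (h1 : ∃ s ≤ m, G.Miss c (y s) κ) {i : ℕ} (hi : i ≤ m)
    (h2 : G.Miss c (y i) η) (h3 : G.Miss c (y (m + 2)) η) : False := by
  have hT := ext (trunc h (by omega : m ≤ m + 2)) hm hpr (h.ed (m + 1) (by omega))
    (fun t ht h4 => by
      have := h.inj t (by omega) (m + 1 + 1) (by omega) h4
      omega) hκ h1
  refine IHp (m + 1) _ _ _ _ hT (fun t ht h4 => by omega) i (m + 1) (by omega) le_rfl η ?_ ?_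
  · rw [Function.update_of_ne (by omega)]
    exact h2
  · rw [Function.update_self]
    exact h3

/-- the unused case -/
lemma caseU [Finite V] [Finite E] {G : MGraph V E} {k Δ : ℕ} (hG : ¬ G.Colorable k)
    (hdeg : ∀ u, G.degree u ≤ Δ) (hk : Δ + 1 ≤ k) {m n : ℕ}
    (IHp : ∀ n', Good G k (m + 1) n')
    (IH : ∀ n' < n, Good G k (m + 2) n') {y : ℕ → V} {f : ℕ → E}
    {pr : ℕ → ℕ} {c : E → Option (Fin k)} (h : TT G n y f pr c) (hp : PN (m + 2) n pr)
    (hm : 1 ≤ m) (hmn : m + 2 ≤ n) (hpr : pr (m + 1) ≤ m) {η : Fin k} {i : ℕ} (hi : i ≤ m)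
    (h1 : G.Miss c (y i) η) (h2 : G.Miss c (y n) η)
    (hun : ∀ t, 1 ≤ t → t ≤ m + 1 → c (f t) ≠ some η) : False := by
  rcases Nat.lt_or_ge (m + 2) n with hn | hn
  · obtain ⟨γ, hγ⟩ := G.exists_miss c (y (m + 2)) (hdeg _) hk
    have hA := claimA IH h hp (by omega : i < m + 2) hn h1 hγ
      (fun t ht1 ht => hun t ht1 (by omega))
    have hni : ¬ Rch G c η γ (y n) (y i) := fun hr =>
      three h.pp (Or.inl h2) (Or.inl h1) (Or.inr hγ) hr (Relation.ReflTransGen.trans hr hA.sym)
        (fun h3 => by have := h.inj _ (by omega) _ (by omega) h3; omega)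
        (fun h3 => by have := h.inj _ (by omega) _ (by omega) h3; omega)
        (fun h3 => by have := h.inj _ (by omega) _ (by omega) h3; omega)
    have hni' : ¬ Rch G c η γ (y n) (y (m + 2)) := fun hr =>
      hni (Relation.ReflTransGen.trans hr hA)
    obtain ⟨c', hx⟩ := exch G h.pp η γ (y n)
    have ma : G.Miss c' (y i) η := hx.outK _ hni η h1
    have mb : G.Miss c' (y (m + 2)) γ := hx.outK _ hni' γ hγ
    have mn : G.Miss c' (y n) γ := by
      have := hx.inK (y n) Relation.ReflTransGen.refl η h2
      simpa using this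
    refine case1a hG hdeg hk IH (n - (m + 2) - 1) y f pr c' (tt_exch h hx ?_) hp (m + 2) le_rfl
      (by omega) γ mb mn
    intro t ht ht1 hcol
    have hti : m + 2 ≤ t := by
      by_contra hti
      rcases hcol with hcol | hcol
      · exact hun t ht1 (by omega) hcol
      · obtain ⟨z, hz, s, hs, hsm⟩ := h.col t ht ht1
        rw [hcol] at hz
        have h3 : γ = z := Option.some.inj hz
        subst h3
        exact elem IH h hp (by omega : s < m + 2) hn hsm hγ
    exact ⟨fun _ => ⟨i, by omega, ma⟩, fun _ => ⟨m + 2, hti, mb⟩⟩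
  · have hn' : n = m + 2 := by omega
    subst hn'
    obtain ⟨κ, hκ, s, hs, hsm⟩ := h.col (m + 1) (by omega) (by omega)
    rcases Nat.lt_or_ge s (m + 1) with hs1 | hs1
    · exact caseD IHp h hm hpr hκ ⟨s, by omega, hsm⟩ hi h1 h2
    · have hs' : s = m + 1 := by omega
      subst hs'
      have hκη : κ ≠ η := by
        rintro rfl
        exact hun (m + 1) (by omega) le_rfl hκ
      have hA := claimA IH h hp (by omega : i < m + 1) (by omega) h1 hsm
        (fun t ht1 ht => hun t ht1 (by omega))
      have hn : ¬ Rch G c η κ (y (m + 1)) (y (m + 2)) := fun hr =>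
        three h.pp (Or.inr hsm) (Or.inl h1) (Or.inl h2) hA hr
          (fun h3 => by have := h.inj _ (by omega) _ (by omega) h3; omega)
          (fun h3 => by have := h.inj _ (by omega) _ (by omega) h3; omega)
          (fun h3 => by have := h.inj _ (by omega) _ (by omega) h3; omega)
      obtain ⟨c', hx⟩ := exch G h.pp η κ (y (m + 1))
      have m1 : G.Miss c' (y i) κ := by
        have := hx.inK _ hA η h1
        simpa using this
      have m2 : G.Miss c' (y (m + 1)) η := by
        have := hx.inK _ Relation.ReflTransGen.refl κ hsm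
        simpa using this
      have m3 : G.Miss c' (y (m + 2)) η := hx.outK _ hn η h2
      have m4 : c' (f (m + 1)) = some κ := by
        rw [hx.edge (f (m + 1)) (y (m + 2)) (by rw [h.ed (m + 1) (by omega)]; simp) hn]
        exact hκ
      have hT : TT G (m + 2) y f pr c' := by
        refine tt_exch h hx ?_
        intro t ht ht1 hcol
        have hti : t = m + 1 := by
          by_contra hti
          rcases hcol with hcol | hcol
          · exact hun t ht1 (by omega) hcol
          · obtain ⟨z, hz, s, hs, hsm'⟩ := h.col t ht ht1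
            rw [hcol] at hz
            have h3 : κ = z := Option.some.inj hz
            subst h3
            exact elem IH h hp (by omega : s < m + 1) (by omega) hsm' hsm
        subst hti
        exact ⟨fun _ => ⟨m + 1, le_rfl, m2⟩, fun _ => ⟨i, by omega, m1⟩⟩
      obtain ⟨c'', a', ha', g1, g2, g3, g4⟩ := caseB hdeg hk IH hT hp hm le_rfl m2 m3
      obtain ⟨g5, g6⟩ := g4 κ m4 hκη
      exact caseD IHp g1 hm hpr g5 ⟨i, hi, g6 _ m1⟩ ha' g2 g3

/-- the walk argument -/
lemma walk {G : MGraph V E} {k : ℕ} {m n : ℕ}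
    (IHp : ∀ n', Good G k (m + 1) n') {y : ℕ → V} {f : ℕ → E}
    {pr : ℕ → ℕ} {c : E → Option (Fin k)} (h : TT G n y f pr c)
    (hm : 1 ≤ m) (hmn : m + 2 ≤ n) {η α : Fin k} {i a j : ℕ} (hi : i ≤ m) (ha : a ≤ m)
    (hj : j ≤ m)
    (h1 : G.Miss c (y i) η) (h2 : G.Miss c (y a) α) (h3 : G.Miss c (y n) η) :
    ¬ Rch G c η α (y n) (y j) := by
  classical
  intro hr
  have key : ∀ v, Rch G c η α v (y j) → (∃ s ≤ m, v = y s) ∨
      (∃ (n' : ℕ) (y' : ℕ → V) (f' : ℕ → E) (pr' : ℕ → ℕ), m + 1 ≤ n' ∧ y' n' = v ∧
        (∀ t ≤ m, y' t = y t) ∧ TT G n' y' f' pr' c ∧ PN (m + 1) n' pr') := by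
    intro v hv
    induction hv using Relation.ReflTransGen.head_induction_on with
    | refl => exact Or.inl ⟨j, hj, rfl⟩
    | head hst hwj ih =>
      rename_i u w
      obtain ⟨e, he, hcol⟩ := hst
      have he' : G.ends e = s(w, u) := by rw [he, Sym2.eq_swap]
      by_cases hu : ∃ s ≤ m, u = y s
      · exact Or.inl hu
      right
      push Not at hu
      obtain ⟨x, hx, hxm⟩ : ∃ x, c e = some x ∧ ∃ s ≤ m, G.Miss c (y s) x := by
        rcases hcol with hcol | hcol
        · exact ⟨η, hcol, i, hi, h1⟩
        · exact ⟨α, hcol, a, ha, h2⟩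
      rcases ih with ⟨s, hs, rfl⟩ | ⟨n', y', f', pr', hn', hyn, hyt, hT, hP⟩
      · have hE := ext (trunc h (by omega : m ≤ n)) hm hs he' (fun t ht => (hu t ht).symm) hx hxm
        refine ⟨m + 1, _, _, _, le_rfl, Function.update_self _ _ _, ?_, hE, ?_⟩
        · intro t ht
          exact Function.update_of_ne (by omega) _ _
        · intro t ht h4
          omega
      · by_cases hin : ∃ t ≤ n', y' t = u
        · obtain ⟨t, ht, htu⟩ := hin
          have hmt : m + 1 ≤ t := by
            by_contra hmt
            refine hu t (by omega) ?_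
            rw [← htu, hyt t (by omega)]
          exact ⟨t, y', f', pr', hmt, htu, hyt, trunc hT ht, hP.trunc ht⟩
        · push Not at hin
          rw [← hyn] at he'
          have hE := ext hT (by omega) le_rfl he' hin hx (by
            obtain ⟨s, hs, hsm⟩ := hxm
            exact ⟨s, by omega, by rw [hyt s hs]; exact hsm⟩)
          refine ⟨n' + 1, _, _, _, by omega, Function.update_self _ _ _, ?_, hE, ?_⟩
          · intro t ht
            rw [Function.update_of_ne (by omega)]
            exact hyt t ht
          · intro t ht h4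
            rcases Nat.lt_or_ge t n' with h5 | h5
            · rw [Function.update_of_ne (by omega)]
              exact hP t h5 h4
            · have : t = n' := by omega
              subst this
              rw [Function.update_self]
  rcases key (y n) hr with ⟨s, hs, h4⟩ | ⟨n', y', f', pr', hn', hyn, hyt, hT, hP⟩
  · have := h.inj _ (by omega) _ (by omega) h4
    omega
  · exact IHp n' y' f' pr' c hT hP i n' (by omega) le_rfl η (by rw [hyt i hi]; exact h1)
      (by rw [hyn]; exact h3)

/-- the case `i ≤ p - 2` -/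
lemma caseC [Finite V] [Finite E] {G : MGraph V E} {k Δ : ℕ} (hG : ¬ G.Colorable k)
    (hdeg : ∀ u, G.degree u ≤ Δ) (hk : Δ + 1 ≤ k) {m n : ℕ}
    (IHp : ∀ n', Good G k (m + 1) n')
    (IH : ∀ n' < n, Good G k (m + 2) n') {y : ℕ → V} {f : ℕ → E}
    {pr : ℕ → ℕ} {c : E → Option (Fin k)} (h : TT G n y f pr c) (hp : PN (m + 2) n pr)
    (hm : 1 ≤ m) (hmn : m + 2 ≤ n) (hpr : pr (m + 1) ≤ m) {η : Fin k} {i : ℕ} (hi : i ≤ m)
    (h1 : G.Miss c (y i) η) (h2 : G.Miss c (y n) η) : False := by
  obtain ⟨a, ha, α, hα, hfree⟩ := free hdeg hk h hm (by omega)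
    (fun s t hst ht z => elem IH h hp hst (by omega))
  have hout : ∀ j ≤ m, ¬ Rch G c η α (y n) (y j) := fun j hj =>
    walk IHp h hm hmn hi ha hj h1 hα h2
  obtain ⟨c', hx⟩ := exch G h.pp η α (y n)
  have m1 : G.Miss c' (y i) η := hx.outK _ (hout i hi) η h1
  have m2 : G.Miss c' (y a) α := hx.outK _ (hout a ha) α hα
  have m3 : G.Miss c' (y n) α := by
    have := hx.inK (y n) Relation.ReflTransGen.refl η h2
    simpa using this
  have hedge : ∀ t, t ≤ m + 1 → c' (f t) = c (f t) := by
    intro t ht
    have hprt : pr t ≤ m := by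
      rcases Nat.lt_or_ge t (m + 1) with h3 | h3
      · have := h.le t (by omega)
        omega
      · have : t = m + 1 := by omega
        subst this
        exact hpr
    exact hx.edge (f t) (y (pr t)) (by rw [h.ed t (by omega)]; simp) (hout _ hprt)
  have hT : TT G n y f pr c' := by
    refine tt_exch h hx ?_
    intro t ht ht1 hcol
    rcases Nat.lt_or_ge m t with h3 | h3
    · exact ⟨fun _ => ⟨i, by omega, m1⟩, fun _ => ⟨a, by omega, m2⟩⟩
    · obtain ⟨z, hz, s, hs, hsm⟩ := h.col t ht ht1
      have hs' : G.Miss c' (y s) z := hx.outK _ (hout s (by omega)) z hsm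
      rw [hedge t (by omega), hz]
      constructor
      · intro h4
        have h5 : z = η := Option.some.inj h4
        rw [← h5]
        exact ⟨s, hs, hs'⟩
      · intro h4
        have h5 : z = α := Option.some.inj h4
        rw [← h5]
        exact ⟨s, hs, hs'⟩
  refine caseU hG hdeg hk IHp IH hT hp hm hmn hpr ha m2 m3 ?_
  intro t ht1 ht
  rw [hedge t ht]
  exact hfree t ht1 ht

theorem main : PartTAS := by
  classical
  intro V E _ _ G k Δ hG hdeg hk
  have key : ∀ p n, Good G k p n := by
    intro p
    induction p using Nat.strong_induction_on with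
    | _ p IHp =>
    intro n
    induction n using Nat.strong_induction_on with
    | _ n IH =>
    intro y f pr c h hp i j hij hjn a hi hj
    rcases Nat.lt_or_ge j n with hj1 | hj1
    · exact elem IH h hp hij hj1 hi hj
    have hj2 : j = n := by omega
    subst hj2
    rcases Nat.lt_or_ge j p with hnp | hnp
    · exact IHp j hnp j y f pr c h (fun t ht h1 => by omega) i j hij le_rfl a hi hj
    rcases Nat.lt_or_ge i p with hip | hip
    swap
    · exact case1a hG hdeg hk IH (j - i - 1) y f pr c h hp i hip (by omega) a hi hj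
    by_cases hpr : pr (p - 1) = p - 1
    · refine IHp (p - 1) (by omega) j y f pr c h ?_ i j hij le_rfl a hi hj
      intro t ht h1
      rcases Nat.lt_or_ge t p with h2 | h2
      · have : t = p - 1 := by omega
        rw [this]
        exact hpr
      · exact hp t ht h2
    have hle := h.le (p - 1) (by omega)
    have hp2 : 2 ≤ p := by
      by_contra h1
      have : p = 1 := by omega
      subst this
      apply hpr
      simpa using hle
    rcases Nat.lt_or_ge p 3 with hp3 | hp3
    · -- p = 2
      have hp2' : p = 2 := by omega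
      subst hp2'
      have hpr1 : pr 1 = 0 := by
        simp only [Nat.add_one_sub_one] at hpr hle
        omega
      have hpr0 : pr 0 = 0 := by
        have := h.le 0 (by omega)
        omega
      let y' : ℕ → V := fun t => y (Equiv.swap 0 1 t)
      have hy'0 : y' 0 = y 1 := by simp [y']
      have hy'1 : y' 1 = y 0 := by simp [y']
      have hy't : ∀ t, 2 ≤ t → y' t = y t := by
        intro t ht
        simp only [y']
        rw [Equiv.swap_apply_of_ne_of_ne (by omega) (by omega)]
      have hsw : ∀ t N, 1 ≤ N → t ≤ N → Equiv.swap 0 1 t ≤ N := by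
        intro t N hN ht
        rcases Nat.lt_or_ge t 2 with h1 | h1
        · rcases Nat.lt_or_ge t 1 with h2 | h2
          · have : t = 0 := by omega
            subst this
            simpa using hN
          · have : t = 1 := by omega
            subst this
            simp
        · rw [Equiv.swap_apply_of_ne_of_ne (by omega) (by omega)]
          exact ht
      have hyy : ∀ t, y' (Equiv.swap 0 1 t) = y t := by
        intro t
        simp [y']
      have hT : TT G j y' f (fun t => t) c := by
        refine ⟨h.pp, ?_, fun t _ => le_rfl, ?_, h.none_iff, ?_⟩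
        · intro s hs t ht hst
          have := h.inj _ (hsw s j (by omega) hs) _ (hsw t j (by omega) ht) hst
          exact (Equiv.swap 0 1).injective this
        · intro t ht
          rcases Nat.lt_or_ge t 1 with h1 | h1
          · have : t = 0 := by omega
            subst this
            rw [hy'0, zero_add, hy'1, h.ed 0 ht, hpr0, Sym2.eq_swap]
          · rcases Nat.lt_or_ge t 2 with h2 | h2
            · have : t = 1 := by omega
              subst this
              rw [hy'1, hy't (1 + 1) (by omega), h.ed 1 ht, hpr1]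
            · rw [hy't t h2, hy't (t + 1) (by omega), h.ed t ht, hp t ht h2]
        · intro t ht ht1
          obtain ⟨z, hz, s, hs, hsm⟩ := h.col t ht ht1
          exact ⟨z, hz, Equiv.swap 0 1 s, hsw s t ht1 hs, by rw [hyy]; exact hsm⟩
      have hne : Equiv.swap 0 1 i ≠ Equiv.swap 0 1 j := fun h1 => by
        have := (Equiv.swap 0 1).injective h1
        omega
      rcases Nat.lt_or_ge (Equiv.swap 0 1 i) (Equiv.swap 0 1 j) with h1 | h1
      · exact IHp 0 (by omega) j y' f (fun t => t) c hT (fun t _ _ => rfl) _ _ h1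
          (hsw j j (by omega) le_rfl) a (by rw [hyy]; exact hi) (by rw [hyy]; exact hj)
      · exact IHp 0 (by omega) j y' f (fun t => t) c hT (fun t _ _ => rfl) _ _
          (lt_of_le_of_ne h1 hne.symm)
          (hsw i j (by omega) (by omega)) a (by rw [hyy]; exact hj) (by rw [hyy]; exact hi)
    · obtain ⟨m, rfl⟩ : ∃ m, p = m + 2 := ⟨p - 2, by omega⟩
      have hpr' : pr (m + 1) ≤ m := by
        have e1 : m + 2 - 1 = m + 1 := by omega
        rw [e1] at hpr hle
        omega
      rcases Nat.lt_or_ge m i with h1 | h1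
      · have : i = m + 1 := by omega
        subst this
        obtain ⟨c'', a', ha', g1, g2, g3, _⟩ := caseB hdeg hk IH h hp (by omega) hnp hi hj
        exact caseC hG hdeg hk (IHp (m + 1) (by omega)) IH g1 hp (by omega) hnp hpr' ha' g2 g3
      · exact caseC hG hdeg hk (IHp (m + 1) (by omega)) IH h hp (by omega) hnp hpr' h1 hi hj
  intro n y f pr c h hn i j hij hj a h1 h2
  exact key n n y f pr c h (fun t ht h3 => by omega) i j hij hj a h1 h2

end Pool.Agent.W411.KG
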